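import Pool.Agent.N115.JS.Stm

/-!
JS/4: the degree of the specializations.
-/

set_option autoImplicit false

open Polynomial IntermediateField
open Pool.Agent.TH466.QG (Sp)

namespace Pool.Agent.N701.JS

theorem spec_poly {k L K' E K'' : Type} [Field k] [Field L] [Field K'] [Algebra k K']
    [Algebra L K'] [Field E] [Field K''] [Algebra k K''] [Algebra E K''] (S : Sp k K' K'')
    {θ : K'} {t : K''} (ht : S.T θ t) (P : L[X])
    (hP : ∀ i < P.natDegree + 1, ∃ e : E, S.T (algebraMap L K' (P.coeff i)) (algebraMap E K'' e)) :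
    ∃ P' : E[X], S.T (aeval θ P) (aeval t P') := by
  choose! e he using hP
  refine ⟨∑ i ∈ Finset.range (P.natDegree + 1), C (e i) * X ^ i, ?_⟩
  rw [aeval_eq_sum_range, map_sum]
  refine S.sum _ fun i hi => ?_
  rw [map_mul, map_pow, aeval_C, aeval_X, Algebra.smul_def]
  exact S.mul (he i (Finset.mem_range.1 hi)) (S.pow ht i)

theorem spec_monic {k L K' E K'' : Type} [Field k] [Field L] [Field K'] [Algebra k K']
    [Algebra L K'] [Field E] [Field K''] [Algebra k K''] [Algebra E K''] (S : Sp k K' K'')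
    {θ : K'} {t : K''} (ht : S.T θ t) (P : L[X]) (hm : P.Monic)
    (hP : ∀ i < P.natDegree + 1, ∃ e : E, S.T (algebraMap L K' (P.coeff i)) (algebraMap E K'' e)) :
    ∃ P' : E[X], P'.Monic ∧ P'.natDegree = P.natDegree ∧ S.T (aeval θ P) (aeval t P') := by
  choose! e he using hP
  have hdeg : degree (∑ i ∈ Finset.range P.natDegree, C (e i) * X ^ i) < (P.natDegree : WithBot ℕ) := by
    rw [Polynomial.degree_lt_iff_coeff_zero]
    intro m hm
    rw [finsetSum_coeff]
    refine Finset.sum_eq_zero fun i hi => ?_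
    rw [coeff_C_mul, coeff_X_pow, if_neg, mul_zero]
    have := Finset.mem_range.1 hi
    omega
  refine ⟨X ^ P.natDegree + ∑ i ∈ Finset.range P.natDegree, C (e i) * X ^ i, monic_X_pow_add hdeg, ?_, ?_⟩
  · rw [natDegree_add_eq_left_of_degree_lt, natDegree_X_pow]
    rw [degree_X_pow]
    exact hdeg
  · have h1 : aeval θ P = θ ^ P.natDegree + ∑ i ∈ Finset.range P.natDegree,
        algebraMap L K' (P.coeff i) * θ ^ i := by
      conv_lhs => rw [hm.as_sum]
      simp [map_sum]
    have h2 : aeval t (X ^ P.natDegree + ∑ i ∈ Finset.range P.natDegree, C (e i) * X ^ i) =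
        t ^ P.natDegree + ∑ i ∈ Finset.range P.natDegree, algebraMap E K'' (e i) * t ^ i := by
      simp [map_sum]
    rw [h1, h2]
    refine S.add (S.pow ht _) (S.sum _ fun i hi => S.mul (he i ?_) (S.pow ht i))
    have := Finset.mem_range.1 hi
    omega

theorem degSpec : Pool.Agent.N115.JS.DegSpec := by
  intro k L K' _ _ _ _ _ _ _ _ _ q r z hr
  have : CharZero L := charZero_of_injective_algebraMap (algebraMap k L).injective
  obtain ⟨θ, hθ⟩ := Field.exists_primitive_element L (adjoin L (Set.range z))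
  have hint : IsIntegral L θ := Algebra.IsIntegral.isIntegral θ
  have hd : (minpoly L θ).natDegree ≤ r := by
    rw [← IntermediateField.adjoin.finrank hint, hθ, IntermediateField.finrank_top']
    exact hr
  have hQ : ∀ j, ∃ Q : L[X], z j = aeval (θ : K') Q := by
    intro j
    have h1 : z j ∈ adjoin L (Set.range z) := subset_adjoin _ _ ⟨j, rfl⟩
    have h2 : (⟨z j, h1⟩ : adjoin L (Set.range z)) ∈ L⟮θ⟯ := by rw [hθ]; trivial
    rw [← mem_toSubalgebra, adjoin_simple_toSubalgebra_of_isAlgebraic hint.isAlgebraic,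
      Algebra.adjoin_singleton_eq_range_aeval] at h2
    obtain ⟨Q, hQ⟩ := h2
    refine ⟨Q, ?_⟩
    have hQ' : aeval θ Q = (⟨z j, h1⟩ : adjoin L (Set.range z)) := hQ
    have h3 := congrArg (algebraMap (adjoin L (Set.range z)) K') hQ'
    rw [← aeval_algebraMap_apply] at h3
    exact h3.symm
  choose Q hQ using hQ
  have hmu : aeval (θ : K') (minpoly L θ) = 0 := by
    have h3 := congrArg (algebraMap (adjoin L (Set.range z)) K') (minpoly.aeval L θ)
    rw [← aeval_algebraMap_apply, map_zero] at h3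
    exact h3
  refine ⟨{(θ : K')}, Set.range (fun i : Fin ((minpoly L θ).natDegree + 1) => (minpoly L θ).coeff i) ∪
    ⋃ j, Set.range (fun i : Fin ((Q j).natDegree + 1) => (Q j).coeff i), Set.finite_singleton _,
    (Set.finite_range _).union (Set.finite_iUnion fun j => Set.finite_range _), ?_⟩
  intro E K'' _ _ _ _ _ _ S hΘ hΛ z' hz'
  obtain ⟨t, ht⟩ := hΘ _ rfl
  obtain ⟨mu', hmon, hdeg, hmu'⟩ := spec_monic (E := E) S ht (minpoly L θ) (minpoly.monic hint)
    (fun i hi => hΛ _ (Or.inl ⟨⟨i, hi⟩, rfl⟩))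
  rw [hmu] at hmu'
  have h0 : aeval t mu' = 0 := S.uniq hmu'
  have htint : IsIntegral E t := ⟨mu', hmon, by rwa [aeval_def] at h0⟩
  have hfin : FiniteDimensional E E⟮t⟯ := adjoin.finiteDimensional htint
  have hle : adjoin E (Set.range z') ≤ E⟮t⟯ := by
    rw [adjoin_le_iff]
    rintro _ ⟨j, rfl⟩
    obtain ⟨Q', hQ'⟩ := spec_poly (E := E) S ht (Q j)
      (fun i hi => hΛ _ (Or.inr (Set.mem_iUnion.2 ⟨j, ⟨⟨i, hi⟩, rfl⟩⟩)))
    rw [← hQ j] at hQ'
    rw [S.ext (hz' j) hQ']
    have : aeval t Q' ∈ E⟮t⟯ := by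
      rw [← mem_toSubalgebra, adjoin_simple_toSubalgebra_of_isAlgebraic htint.isAlgebraic,
        Algebra.adjoin_singleton_eq_range_aeval]
      exact ⟨Q', rfl⟩
    exact this
  refine ⟨?_, ?_⟩
  · exact Submodule.finiteDimensional_of_le (S₁ := (adjoin E (Set.range z')).toSubalgebra.toSubmodule)
      (S₂ := (E⟮t⟯).toSubalgebra.toSubmodule) hle
  · refine (IntermediateField.finrank_le_of_le_right hle).trans ?_
    rw [IntermediateField.adjoin.finrank htint]
    refine le_trans ?_ hd
    rw [← hdeg]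
    exact natDegree_le_of_dvd (minpoly.dvd E t h0) hmon.ne_zero

end Pool.Agent.N701.JS
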